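import Mathlib

/-!
# Near-counterexamples of every order: definitions and statements

Everything is written in base `b = h! + 1` (`bb h`); `B = b ^ h` (`BB h`).

* `sp d`: the base `b` digits of `d` moved to the places `0, h, 2h, …`.  The numbers
  `b ^ c * sp d`, `c < h`, have their digits at the places `≡ c (mod h)`; every natural number is in
  exactly one way `∑ c < h, b ^ c * sp (d c)`.
* levels `i = 0, 1, 2, …` with `s i = 2 log_b (i+1) + 6`, `m i = s 0 + … + s (i-1)`,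
  `N i = b ^ m i`, `M i = B ^ m i = N i ^ h`, `V i = B ^ s i`, `M (i+1) = M i * V i`.
* `pt i c e` (`c < h` colour, `e < N i` index): a number below `M i`, built from the offsets `v`:
  `pt (i+1) c e = pt i c (e % N i) + M i * ((v i c (e % N i) + b ^ c * sp (e / N i)) % V i)`.
  For every residue `n` modulo `M i` there are unique `e c < N i` with `∑ c, pt i c (e c) ≡ n`.
* thresholds: the index `e` of level `i` is used up to the scale `τ = m (i+1) + 2 + e % l i`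
  (`l i = log_b (i+1) + 1`); its successors of level `i + 1` start at this scale.
* `AA`: the set of all `pt i c e + M i * (kap i e + b ^ c * sp t)`, `t < b ^ (s i + 3 + e % l i)`.
-/

namespace Pool.Agent.N885.NC

open Finset Filter

/-- number of unordered representations of `n` as a sum of `h` elements of `A` -/
noncomputable def rep (A : Set ℕ) (h n : ℕ) : ℕ :=
  {s : Multiset ℕ | Multiset.card s = h ∧ (∀ a ∈ s, a ∈ A) ∧ s.sum = n}.ncard

/-- the base `b = h! + 1` -/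
def bb (h : ℕ) : ℕ := h.factorial + 1

/-- `B = b ^ h` -/
def BB (h : ℕ) : ℕ := bb h ^ h

/-- the digits of `d` in base `b` moved to the places `0, h, 2h, …` -/
def sp (h d : ℕ) : ℕ := Nat.ofDigits (BB h) (Nat.digits (bb h) d)

/-- `log_b (i + 1)` -/
def lg (h i : ℕ) : ℕ := Nat.log (bb h) (i + 1)

/-- number of digits of the block `i` -/
def ss (h i : ℕ) : ℕ := 2 * lg h i + 6

/-- length of the range of the thresholds of level `i` -/
def ll (h i : ℕ) : ℕ := lg h i + 1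

/-- number of digits below block `i` -/
def mm (h i : ℕ) : ℕ := ∑ j ∈ range i, ss h j

/-- number of indices of level `i` -/
def NN (h i : ℕ) : ℕ := bb h ^ mm h i

/-- modulus of level `i` -/
def MM (h i : ℕ) : ℕ := BB h ^ mm h i

/-- modulus of block `i` -/
def VV (h i : ℕ) : ℕ := BB h ^ ss h i

/-- the lower parts -/
def pt (h : ℕ) (v : ℕ → ℕ → ℕ → ℕ) : ℕ → ℕ → ℕ → ℕ
  | 0, _, _ => 0
  | i + 1, c, e => pt h v i c (e % NN h i) +
      MM h i * ((v i c (e % NN h i) + bb h ^ c * sp h (e / NN h i)) % VV h i)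

/-- the offset at the beginning of level `i` (it starts at the scale of the threshold of the
predecessor) -/
def kap (h : ℕ) : ℕ → ℕ → ℕ
  | 0, _ => 0
  | i + 1, e => BB h ^ (2 + (e % NN h i) % ll h i)

/-- the elements -/
def el (h : ℕ) (v : ℕ → ℕ → ℕ → ℕ) (i c e t : ℕ) : ℕ :=
  pt h v i c e + MM h i * (kap h i e + bb h ^ c * sp h t)

/-- the set -/
def AA (h : ℕ) (v : ℕ → ℕ → ℕ → ℕ) : Set ℕ :=
  {a | ∃ i c e t : ℕ, c < h ∧ e < NN h i ∧ t < bb h ^ (ss h i + 3 + e % ll h i) ∧ a = el h v i c e t}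

/-- number of (ordered) `k`-tuples of atoms `(c, e)` of level `i` whose lower parts add up to `n`
modulo `M i` -/
def Zc (h : ℕ) (v : ℕ → ℕ → ℕ → ℕ) (i k n : ℕ) : ℕ :=
  (univ.filter fun τ : Fin k → Fin h × Fin (NN h i) =>
    (∑ j, pt h v i (τ j).1 (τ j).2) % MM h i = n % MM h i).card

/-! ### Facts on the definitions (proved in `N885/NC/Sys.lean`) -/

/-- mixed decoding: for all offsets `o`, the numbers
`∑ c, (pt i c (e c) + M i (o c (e c) + b ^ c sp (w c)))`, `e c < N i`, `w c < b ^ s i`, represent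
every residue modulo `M (i+1)` exactly once. -/
def S_Mixed (h : ℕ) : Prop := ∀ (v : ℕ → ℕ → ℕ → ℕ) (i : ℕ) (o : Fin h → ℕ → ℕ) (n : ℕ),
  ∃! p : (Fin h → Fin (NN h i)) × (Fin h → Fin (bb h ^ ss h i)),
    (∑ c : Fin h, (pt h v i c (p.1 c) + MM h i * (o c (p.1 c) + bb h ^ (c : ℕ) * sp h (p.2 c))))
      ≡ n [MOD MM h (i + 1)]

/-! ### The parts of the proof -/

/-- the offsets: all `Zc` are polynomially bounded -/
def ZBd (h : ℕ) (v : ℕ → ℕ → ℕ → ℕ) : Prop :=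
  ∃ C : ℕ, ∀ i k n, k ≤ h → Zc h v i k n ≤ C * (i + 1) ^ C

def S_Hash (h : ℕ) : Prop := ∃ v : ℕ → ℕ → ℕ → ℕ, ZBd h v

def S_Cov (h : ℕ) : Prop := ∀ v : ℕ → ℕ → ℕ → ℕ, ∃ n₀ : ℕ, ∀ n ≥ n₀,
  ∃ s : Multiset ℕ, Multiset.card s = h ∧ (∀ a ∈ s, a ∈ AA h v) ∧ s.sum = n

def S_Thin (h : ℕ) : Prop := ∀ v : ℕ → ℕ → ℕ → ℕ, ∃ C : ℕ, ∀ k : ℕ,
  (AA h v ∩ Set.Iio (BB h ^ k)).ncard ≤ C * bb h ^ k

def S_Pol (h : ℕ) : Prop := ∀ v : ℕ → ℕ → ℕ → ℕ, ZBd h v →
  ∃ C : ℕ, ∀ J n : ℕ, n < MM h J → rep (AA h v) h n ≤ C * (J + 1) ^ C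

/-- for every `ε > 0` and all large scales `k`, the number of `n ∈ [B ^ k, B ^ (k + 1))` with at least
two representations is at most `ε B ^ k` -/
def S_Unq (h : ℕ) : Prop := ∀ v : ℕ → ℕ → ℕ → ℕ, ∀ ε : ℝ, 0 < ε → ∀ᶠ k : ℕ in atTop,
  ({n : ℕ | BB h ^ k ≤ n ∧ n < BB h ^ (k + 1) ∧ 2 ≤ rep (AA h v) h n}.ncard : ℝ) ≤ ε * BB h ^ k

end Pool.Agent.N885.NC
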