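import Mathlib

/-! # Near-counterexamples of every order: the exponential moment -/

namespace Pool.Agent.N885.NC

open Finset

set_option linter.unusedSectionVars false

variable {α : Type*} [Fintype α] [DecidableEq α] {k V D : ℕ} [NeZero V]

/-- `z` at the place `a` -/
def sg (a : α) (z : ZMod V) : α → ZMod V := fun b => if b = a then z else 0

/-- number of solutions `d` of `∑ x (τ j) = tg τ d` -/
def Rc (tg : (Fin k → α) → (Fin k → Fin D) → ZMod V) (τ : Fin k → α) (x : α → ZMod V) : ℕ :=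
  (univ.filter fun d : Fin k → Fin D => ∑ j, x (τ j) = tg τ d).card

theorem Rc_shift_off (tg : (Fin k → α) → (Fin k → Fin D) → ZMod V) {τ : Fin k → α} {a : α}
    (ha : ∀ j, τ j ≠ a) (x : α → ZMod V) (z : ZMod V) :
    Rc tg τ (x + sg a z) = Rc tg τ x := by
  unfold Rc
  have : ∑ j, (x + sg a z) (τ j) = ∑ j, x (τ j) := by
    refine sum_congr rfl fun j _ => ?_
    rw [Pi.add_apply, sg, if_neg (ha j), add_zero]
  simp only [this]

theorem sum_Rc_shift (tg : (Fin k → α) → (Fin k → Fin D) → ZMod V) {τ : Fin k → α} {a : α}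
    (ha : ∃ j, τ j = a) (hcop : ∀ m, 1 ≤ m → m ≤ k → Nat.Coprime m V) (x : α → ZMod V) :
    ∑ z : ZMod V, Rc tg τ (x + sg a z) = D ^ k := by
  unfold Rc
  simp_rw [card_filter]
  rw [sum_comm]
  set m : ℕ := (univ.filter fun j => τ j = a).card with hm
  have hm1 : 1 ≤ m := by
    obtain ⟨j, hj⟩ := ha
    exact Finset.card_pos.mpr ⟨j, by simp [hj]⟩
  have hm2 : m ≤ k := by
    have := card_le_univ (univ.filter fun j => τ j = a)
    simpa using this
  let u : (ZMod V)ˣ := ZMod.unitOfCoprime m (hcop m hm1 hm2)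
  have hu : (u : ZMod V) = m := ZMod.coe_unitOfCoprime m _
  have hsum : ∀ z : ZMod V, ∑ j, (x + sg a z) (τ j) = (∑ j, x (τ j)) + u * z := by
    intro z
    have h1 : ∑ j, (x + sg a z) (τ j) = ∑ j, (x (τ j) + if τ j = a then z else 0) := by
      refine sum_congr rfl fun j _ => ?_
      rfl
    rw [h1, sum_add_distrib, ← sum_filter, sum_const, hu, nsmul_eq_mul]
  have key : ∀ d : Fin k → Fin D,
      ∑ z : ZMod V, (if ∑ j, (x + sg a z) (τ j) = tg τ d then 1 else 0) = 1 := by
    intro d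
    let e : ZMod V ≃ ZMod V := (Units.mulLeft u).trans (Equiv.addLeft (∑ j, x (τ j)))
    have he : ∀ z, e z = ∑ j, (x + sg a z) (τ j) := fun z => (hsum z).symm
    simp_rw [← he]
    rw [Equiv.sum_comp e (fun w => if w = tg τ d then 1 else 0)]
    simp
  rw [sum_congr rfl fun d _ => key d]
  simp

/-- translation average -/
theorem sum_shift (a : α) (f : (α → ZMod V) → ℝ) :
    (V : ℝ) * ∑ x, f x = ∑ x, ∑ z : ZMod V, f (x + sg a z) := by
  rw [sum_comm]
  have : ∀ z : ZMod V, ∑ x, f (x + sg a z) = ∑ x, f x := fun z =>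
    Equiv.sum_comp (Equiv.addRight (sg a z)) f
  rw [sum_congr rfl fun z _ => this z]
  simp [ZMod.card]

theorem exp_le_quad {u : ℝ} (h0 : 0 ≤ u) (h1 : u ≤ 1) : Real.exp u ≤ 1 + u + u ^ 2 := by
  have := Real.abs_exp_sub_one_sub_id_le (x := u) (by rw [abs_of_nonneg h0]; exact h1)
  have := (abs_le.mp this).2
  linarith

/-- **Exponential moment.** -/
theorem expmom (hk : 0 < k) (hcop : ∀ m, 1 ≤ m → m ≤ k → Nat.Coprime m V)
    (S : Finset (Fin k → α)) (tg : (Fin k → α) → (Fin k → Fin D) → ZMod V) {lam ε B : ℝ}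
    (hlam : 0 ≤ lam) (hε1 : ε ≤ 1) (hB : lam * B ≤ ε)
    (hbd : ∀ a x, ∑ τ ∈ S.filter (fun τ => ∃ j, τ j = a), (Rc tg τ x : ℝ) ≤ B) :
    ∑ x : α → ZMod V, Real.exp (lam * ∑ τ ∈ S, (Rc tg τ x : ℝ)) ≤
      (V : ℝ) ^ Fintype.card α * Real.exp (lam * (1 + ε) * ((D : ℝ) ^ k / V) * S.card) := by
  have hV : (0 : ℝ) < V := by exact_mod_cast Nat.pos_of_ne_zero (NeZero.ne V)
  have main : ∀ s : Finset α,
      ∑ x : α → ZMod V, Real.exp (lam * ∑ τ ∈ S.filter (fun τ => ∀ j, τ j ∈ s), (Rc tg τ x : ℝ)) ≤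
      (V : ℝ) ^ Fintype.card α * Real.exp (lam * (1 + ε) * ((D : ℝ) ^ k / V) *
        (S.filter (fun τ => ∀ j, τ j ∈ s)).card) := by
    intro s
    induction s using Finset.induction_on with
    | empty =>
      have h0 : S.filter (fun τ => ∀ j, τ j ∈ (∅ : Finset α)) = ∅ := by
        apply filter_eq_empty_iff.mpr
        intro τ _ h
        exact absurd (h ⟨0, hk⟩) (notMem_empty _)
      rw [h0]
      simp [ZMod.card]
    | insert a s ha ih =>
      set F : Finset (Fin k → α) := S.filter (fun τ => ∀ j, τ j ∈ s) with hF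
      set N : Finset (Fin k → α) :=
        S.filter (fun τ => (∀ j, τ j ∈ insert a s) ∧ ∃ j, τ j = a) with hN
      have hunion : S.filter (fun τ => ∀ j, τ j ∈ insert a s) = F ∪ N := by
        ext τ
        simp only [hF, hN, mem_filter, mem_union, mem_insert]
        constructor
        · rintro ⟨h1, h2⟩
          by_cases h3 : ∃ j, τ j = a
          · exact Or.inr ⟨h1, h2, h3⟩
          · push Not at h3
            exact Or.inl ⟨h1, fun j => (h2 j).resolve_left (h3 j)⟩
        · rintro (⟨h1, h2⟩ | ⟨h1, h2, _⟩)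
          · exact ⟨h1, fun j => Or.inr (h2 j)⟩
          · exact ⟨h1, h2⟩
      have hdisj : Disjoint F N := by
        rw [Finset.disjoint_left]
        intro τ h1 h2
        obtain ⟨_, _, j, hj⟩ := mem_filter.mp h2
        have := (mem_filter.mp h1).2 j
        rw [hj] at this
        exact ha this
      rw [hunion, card_union_of_disjoint hdisj]
      simp_rw [sum_union hdisj]
      have hGbd : ∀ x, ∑ τ ∈ N, (Rc tg τ x : ℝ) ≤ B := by
        intro x
        refine le_trans (sum_le_sum_of_subset_of_nonneg ?_ fun _ _ _ => Nat.cast_nonneg _) (hbd a x)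
        intro τ hτ
        obtain ⟨h1, _, h2⟩ := mem_filter.mp hτ
        exact mem_filter.mpr ⟨h1, h2⟩
      have hG0 : ∀ x, 0 ≤ ∑ τ ∈ N, (Rc tg τ x : ℝ) := fun x => sum_nonneg fun _ _ => Nat.cast_nonneg _
      have hFshift : ∀ x (z : ZMod V), ∑ τ ∈ F, (Rc tg τ (x + sg a z) : ℝ) =
          ∑ τ ∈ F, (Rc tg τ x : ℝ) := by
        intro x z
        refine sum_congr rfl fun τ hτ => ?_
        rw [Rc_shift_off tg (fun j hj => ha (by rw [← hj]; exact (mem_filter.mp hτ).2 j))]
      have hGsum : ∀ x, ∑ z : ZMod V, ∑ τ ∈ N, (Rc tg τ (x + sg a z) : ℝ) =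
          (N.card : ℝ) * (D : ℝ) ^ k := by
        intro x
        rw [sum_comm]
        have : ∀ τ ∈ N, ∑ z : ZMod V, (Rc tg τ (x + sg a z) : ℝ) = (D : ℝ) ^ k := by
          intro τ hτ
          have := sum_Rc_shift tg (mem_filter.mp hτ).2.2 hcop x
          exact_mod_cast this
        rw [sum_congr rfl this, sum_const, nsmul_eq_mul]
      have hinner : ∀ x, ∑ z : ZMod V, Real.exp (lam * ∑ τ ∈ N, (Rc tg τ (x + sg a z) : ℝ)) ≤
          V * Real.exp (lam * (1 + ε) * ((D : ℝ) ^ k / V) * N.card) := by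
        intro x
        have h1 : ∀ z : ZMod V, Real.exp (lam * ∑ τ ∈ N, (Rc tg τ (x + sg a z) : ℝ)) ≤
            1 + lam * (1 + ε) * ∑ τ ∈ N, (Rc tg τ (x + sg a z) : ℝ) := by
          intro z
          set g := ∑ τ ∈ N, (Rc tg τ (x + sg a z) : ℝ) with hg
          have g0 : 0 ≤ g := hG0 _
          have g1 : lam * g ≤ ε := le_trans (mul_le_mul_of_nonneg_left (hGbd _) hlam) hB
          have g2 : 0 ≤ lam * g := mul_nonneg hlam g0
          have := exp_le_quad g2 (g1.trans hε1)
          have h3 : (lam * g) ^ 2 ≤ ε * (lam * g) := by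
            rw [sq]; exact mul_le_mul_of_nonneg_right g1 g2
          linarith
        calc ∑ z : ZMod V, Real.exp (lam * ∑ τ ∈ N, (Rc tg τ (x + sg a z) : ℝ))
            ≤ ∑ z : ZMod V, (1 + lam * (1 + ε) * ∑ τ ∈ N, (Rc tg τ (x + sg a z) : ℝ)) :=
              sum_le_sum fun z _ => h1 z
          _ = V + lam * (1 + ε) * ((N.card : ℝ) * (D : ℝ) ^ k) := by
              rw [sum_add_distrib, ← mul_sum, hGsum x]
              simp [ZMod.card]
          _ = V * (lam * (1 + ε) * ((D : ℝ) ^ k / V) * N.card + 1) := by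
              field_simp; ring
          _ ≤ V * Real.exp (lam * (1 + ε) * ((D : ℝ) ^ k / V) * N.card) :=
              mul_le_mul_of_nonneg_left (Real.add_one_le_exp _) hV.le
      have h4 : (V : ℝ) * ∑ x : α → ZMod V, Real.exp (lam * (∑ τ ∈ F, (Rc tg τ x : ℝ) +
            ∑ τ ∈ N, (Rc tg τ x : ℝ))) ≤
          V * (((V : ℝ) ^ Fintype.card α * Real.exp (lam * (1 + ε) * ((D : ℝ) ^ k / V) * F.card)) *
            Real.exp (lam * (1 + ε) * ((D : ℝ) ^ k / V) * N.card)) := by
        rw [sum_shift a]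
        have h5 : ∀ x : α → ZMod V, ∑ z : ZMod V, Real.exp (lam *
            (∑ τ ∈ F, (Rc tg τ (x + sg a z) : ℝ) +
              ∑ τ ∈ N, (Rc tg τ (x + sg a z) : ℝ))) ≤
            Real.exp (lam * ∑ τ ∈ F, (Rc tg τ x : ℝ)) *
              (V * Real.exp (lam * (1 + ε) * ((D : ℝ) ^ k / V) * N.card)) := by
          intro x
          have h6 : ∀ z : ZMod V, Real.exp (lam * (∑ τ ∈ F, (Rc tg τ (x + sg a z) : ℝ) +
              ∑ τ ∈ N, (Rc tg τ (x + sg a z) : ℝ))) =
              Real.exp (lam * ∑ τ ∈ F, (Rc tg τ x : ℝ)) *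
                Real.exp (lam * ∑ τ ∈ N, (Rc tg τ (x + sg a z) : ℝ)) := by
            intro z
            rw [hFshift, mul_add, Real.exp_add]
          rw [sum_congr rfl fun z _ => h6 z, ← mul_sum]
          exact mul_le_mul_of_nonneg_left (hinner x) (Real.exp_pos _).le
        refine le_trans (sum_le_sum fun x _ => h5 x) ?_
        rw [← sum_mul]
        calc (∑ x : α → ZMod V, Real.exp (lam * ∑ τ ∈ F, (Rc tg τ x : ℝ))) *
              (V * Real.exp (lam * (1 + ε) * ((D : ℝ) ^ k / V) * N.card))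
            ≤ ((V : ℝ) ^ Fintype.card α * Real.exp (lam * (1 + ε) * ((D : ℝ) ^ k / V) * F.card)) *
              (V * Real.exp (lam * (1 + ε) * ((D : ℝ) ^ k / V) * N.card)) :=
              mul_le_mul_of_nonneg_right ih (mul_nonneg hV.le (Real.exp_pos _).le)
          _ = _ := by ring
      have h7 := le_of_mul_le_mul_left h4 hV
      refine h7.trans (le_of_eq ?_)
      rw [mul_assoc, ← Real.exp_add]
      congr 2
      push_cast
      ring
  have := main univ
  simpa using this

end Pool.Agent.N885.NC
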