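import Pool.Agent.N885.NC.El

/-! # Near-counterexamples of every order: polylogarithmic bound of the representation function

In a representation `n = a 1 + … + a k` the element `a 0` of the smallest level `j` is determined up
to `Zc j k n · k · b ^ (s j + 3 + l j)` choices: the residues modulo `M j` of all the elements are
lower parts of the level `j`.
-/

namespace Pool.Agent.N885.NC

open Finset

namespace P199

/-- the multisets counted by `rep` -/
def TT (A : Set ℕ) (k n : ℕ) : Set (Multiset ℕ) :=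
  {s : Multiset ℕ | Multiset.card s = k ∧ (∀ a ∈ s, a ∈ A) ∧ s.sum = n}

theorem rep_eq (A : Set ℕ) (k n : ℕ) : rep A k n = (TT A k n).ncard := rfl

/-- the candidates for the element of the smallest level -/
def SS (h : ℕ) (v : ℕ → ℕ → ℕ → ℕ) (k J n : ℕ) : Finset ℕ :=
  (range (J + 1)).biUnion fun j =>
    (((univ.filter fun τ : Fin k → Fin h × Fin (NN h j) =>
        (∑ l, pt h v j (τ l).1 (τ l).2) % MM h j = n % MM h j) ×ˢ
      ((univ : Finset (Fin k)) ×ˢ range (bb h ^ (ss h j + 3 + ll h j)))).image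
      fun p => el h v j (p.1 p.2.1).1 (p.1 p.2.1).2 p.2.2)

theorem pow_le (h j : ℕ) : bb h ^ (ss h j + 3 + ll h j) ≤ bb h ^ 10 * (j + 1) ^ 3 := by
  have h1 : ss h j + 3 + ll h j = 10 + lg h j * 3 := by unfold ss ll; ring
  rw [h1, pow_add, pow_mul]
  exact Nat.mul_le_mul_left _ (Nat.pow_le_pow_left (bb_pow_lg_le h j) 3)

theorem card_SS {h : ℕ} {v : ℕ → ℕ → ℕ → ℕ} {k C : ℕ} (hC : ∀ i n, Zc h v i k n ≤ C * (i + 1) ^ C)
    (J n : ℕ) : (SS h v k J n).card ≤ C * k * bb h ^ 10 * (J + 1) ^ (C + 4) := by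
  refine Finset.card_biUnion_le.trans ?_
  have h1 : ∀ j ∈ range (J + 1), ((((univ.filter fun τ : Fin k → Fin h × Fin (NN h j) =>
        (∑ l, pt h v j (τ l).1 (τ l).2) % MM h j = n % MM h j) ×ˢ
      ((univ : Finset (Fin k)) ×ˢ range (bb h ^ (ss h j + 3 + ll h j)))).image
      fun p => el h v j (p.1 p.2.1).1 (p.1 p.2.1).2 p.2.2)).card ≤
        C * k * bb h ^ 10 * (J + 1) ^ (C + 3) := by
    intro j hj
    have hj' : j + 1 ≤ J + 1 := Nat.succ_le_of_lt (mem_range.1 hj)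
    refine Finset.card_image_le.trans ?_
    rw [card_product, card_product, card_univ, Fintype.card_fin, card_range]
    have h2 : (univ.filter fun τ : Fin k → Fin h × Fin (NN h j) =>
        (∑ l, pt h v j (τ l).1 (τ l).2) % MM h j = n % MM h j).card ≤ C * (j + 1) ^ C := hC j n
    calc _ ≤ (C * (j + 1) ^ C) * (k * (bb h ^ 10 * (j + 1) ^ 3)) :=
          Nat.mul_le_mul h2 (Nat.mul_le_mul_left _ (pow_le h j))
      _ = C * k * bb h ^ 10 * (j + 1) ^ (C + 3) := by rw [pow_add]; ring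
      _ ≤ _ := Nat.mul_le_mul_left _ (Nat.pow_le_pow_left hj' _)
  calc _ ≤ ∑ j ∈ range (J + 1), C * k * bb h ^ 10 * (J + 1) ^ (C + 3) := Finset.sum_le_sum h1
    _ = _ := by rw [Finset.sum_const, card_range, smul_eq_mul, ← add_assoc C 3 1, pow_succ]; ring

/-- enumeration of a multiset -/
theorem exists_enum {m : ℕ} {s : Multiset ℕ} (hs : Multiset.card s = m) :
    ∃ f : Fin m → ℕ, (univ : Finset (Fin m)).val.map f = s := by
  subst hs
  induction s using Quotient.inductionOn with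
  | _ L =>
    refine ⟨fun i => L.get i, ?_⟩
    rw [Fin.univ_val_map]
    simp

/-- the element of the smallest level is a candidate -/
theorem exists_small {h : ℕ} (v : ℕ → ℕ → ℕ → ℕ) {k J n : ℕ} {s : Multiset ℕ}
    (hs : s ∈ TT (AA h v) (k + 1) n) (hn : n < MM h J) : ∃ a ∈ s, a ∈ SS h v (k + 1) J n := by
  obtain ⟨hcard, hA, hsum⟩ := hs
  have hex : ∀ a : ℕ, ∃ q : ℕ × ℕ × ℕ × ℕ, a ∈ s → q.2.1 < h ∧ q.2.2.1 < NN h q.1 ∧
      q.2.2.2 < bb h ^ (ss h q.1 + 3 + q.2.2.1 % ll h q.1) ∧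
      a = el h v q.1 q.2.1 q.2.2.1 q.2.2.2 := by
    intro a
    by_cases ha : a ∈ s
    · obtain ⟨i, c, e, t, h1, h2, h3, h4⟩ := hA a ha
      exact ⟨(i, c, e, t), fun _ => ⟨h1, h2, h3, h4⟩⟩
    · exact ⟨(0, 0, 0, 0), fun h => absurd h ha⟩
  choose q hq using hex
  obtain ⟨a0, ha0, hmin⟩ : ∃ a0 ∈ s, ∀ a ∈ s, (q a0).1 ≤ (q a).1 := by
    have hne : s.toFinset.Nonempty := by
      rw [Multiset.toFinset_nonempty]
      intro h0
      rw [h0] at hcard
      simp at hcard
    obtain ⟨a0, h1, h2⟩ := Finset.exists_min_image s.toFinset (fun a => (q a).1) hne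
    exact ⟨a0, Multiset.mem_toFinset.1 h1, fun a ha => h2 a (Multiset.mem_toFinset.2 ha)⟩
  obtain ⟨f, hf⟩ := exists_enum hcard
  have hfs : ∀ l, f l ∈ s := by
    intro l
    rw [← hf]
    exact Multiset.mem_map_of_mem f (Finset.mem_univ l)
  have hfsum : ∑ l, f l = n := by
    rw [← hsum, ← hf]
    rfl
  obtain ⟨l0, hl0⟩ : ∃ l0, f l0 = a0 := by
    have h1 := ha0
    rw [← hf, Multiset.mem_map] at h1
    obtain ⟨l0, _, h2⟩ := h1
    exact ⟨l0, h2⟩
  have hq0 := hq a0 ha0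
  have hle : a0 ≤ n := by
    rw [← hsum]
    exact Multiset.le_sum_of_mem ha0
  have hjJ : (q a0).1 < J + 1 := by
    rcases Nat.eq_zero_or_pos (q a0).1 with h0 | h0
    · omega
    · have h1 := el_lower' (h := h) v h0 (q a0).2.1 (q a0).2.2.1 (q a0).2.2.2
      rw [← hq0.2.2.2] at h1
      have h2 : BB h ^ (mm h (q a0).1 + 2) < BB h ^ mm h J := lt_of_le_of_lt (h1.trans hle) hn
      by_contra hc
      push Not at hc
      have h3 : mm h J ≤ mm h (q a0).1 + 2 := (mm_mono h (by omega)).trans (Nat.le_add_right _ _)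
      exact absurd h2 (not_lt.2 (Nat.pow_le_pow_right (BB_pos h) h3))
  refine ⟨a0, ha0, ?_⟩
  unfold SS
  rw [Finset.mem_biUnion]
  refine ⟨(q a0).1, mem_range.2 hjJ, ?_⟩
  rw [Finset.mem_image]
  refine ⟨(fun l => (⟨(q (f l)).2.1, (hq _ (hfs l)).1⟩,
    ⟨(q (f l)).2.2.1 % NN h (q a0).1, Nat.mod_lt _ (NN_pos h _)⟩), l0, (q a0).2.2.2), ?_, ?_⟩
  · simp only [mem_product, mem_filter, mem_univ, true_and, mem_range]
    constructor
    · have h1 : ∀ l, pt h v (q a0).1 (q (f l)).2.1 ((q (f l)).2.2.1 % NN h (q a0).1) =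
          f l % MM h (q a0).1 := by
        intro l
        have h2 := hq _ (hfs l)
        rw [← el_mod v (hmin _ (hfs l)) (q (f l)).2.1 (q (f l)).2.2.1 (q (f l)).2.2.2 h2.2.1,
          ← h2.2.2.2]
      simp only [h1]
      rw [← Finset.sum_nat_mod, hfsum]
    · refine lt_of_lt_of_le hq0.2.2.1 (Nat.pow_le_pow_right (bb_pos h) ?_)
      have := mod_ll_lt h (q a0).1 (q a0).2.2.1
      omega
  · simp only [hl0]
    rw [Nat.mod_eq_of_lt hq0.2.1]
    exact hq0.2.2.2.symm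

theorem TT_succ_subset {h : ℕ} (v : ℕ → ℕ → ℕ → ℕ) {k J n : ℕ} (hn : n < MM h J) :
    TT (AA h v) (k + 1) n ⊆ ⋃ a ∈ SS h v (k + 1) J n, (fun s => a ::ₘ s) '' TT (AA h v) k (n - a) := by
  intro s hs
  obtain ⟨a, has, haS⟩ := exists_small v hs hn
  obtain ⟨hcard, hA, hsum⟩ := hs
  simp only [Set.mem_iUnion, Set.mem_image]
  refine ⟨a, haS, s.erase a, ⟨?_, ?_, ?_⟩, Multiset.cons_erase has⟩
  · rw [Multiset.card_erase_of_mem has, hcard]
    rfl
  · intro x hx
    exact hA x (Multiset.mem_of_mem_erase hx)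
  · have h1 := congrArg Multiset.sum (Multiset.cons_erase has)
    rw [Multiset.sum_cons, hsum] at h1
    omega

theorem bound {h : ℕ} (v : ℕ → ℕ → ℕ → ℕ) (hv : ZBd h v) (k : ℕ) (hk : k ≤ h) :
    ∃ C : ℕ, ∀ J n : ℕ, n < MM h J →
      (TT (AA h v) k n).Finite ∧ (TT (AA h v) k n).ncard ≤ C * (J + 1) ^ C := by
  obtain ⟨C0, hC0⟩ := hv
  induction k with
  | zero =>
    refine ⟨1, fun J n _ => ?_⟩
    have h1 : TT (AA h v) 0 n ⊆ {0} := by
      intro s hs
      exact Multiset.card_eq_zero.1 hs.1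
    refine ⟨(Set.finite_singleton _).subset h1, ?_⟩
    calc (TT (AA h v) 0 n).ncard ≤ ({0} : Set (Multiset ℕ)).ncard :=
          Set.ncard_le_ncard h1 (Set.finite_singleton _)
      _ = 1 := Set.ncard_singleton _
      _ ≤ 1 * (J + 1) ^ 1 := by simp
  | succ k ih =>
    obtain ⟨C, hC⟩ := ih (by omega)
    refine ⟨C0 * (k + 1) * bb h ^ 10 * C + (C0 + 4 + C), fun J n hn => ?_⟩
    have hsub := TT_succ_subset v (k := k) hn
    have hfin : ∀ a, (TT (AA h v) k (n - a)).Finite := fun a => (hC J (n - a) (by omega)).1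
    classical
    let F : ℕ → Finset (Multiset ℕ) := fun a => ((hfin a).toFinset).image (fun s => a ::ₘ s)
    have hsub2 : TT (AA h v) (k + 1) n ⊆ ((SS h v (k + 1) J n).biUnion F : Finset (Multiset ℕ)) := by
      intro s hs
      have h1 := hsub hs
      simp only [Set.mem_iUnion, Set.mem_image] at h1
      obtain ⟨a, ha, t, ht, rfl⟩ := h1
      simp only [Finset.coe_biUnion, Set.mem_iUnion, Finset.mem_coe]
      refine ⟨a, ha, ?_⟩
      exact Finset.mem_image.2 ⟨t, (hfin a).mem_toFinset.2 ht, rfl⟩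
    refine ⟨(Finset.finite_toSet _).subset hsub2, ?_⟩
    have hcF : ∀ a, (F a).card ≤ C * (J + 1) ^ C := by
      intro a
      refine Finset.card_image_le.trans ?_
      rw [← Set.ncard_eq_toFinset_card _ (hfin a)]
      exact (hC J (n - a) (by omega)).2
    calc (TT (AA h v) (k + 1) n).ncard
        ≤ (((SS h v (k + 1) J n).biUnion F : Finset (Multiset ℕ)) : Set (Multiset ℕ)).ncard :=
          Set.ncard_le_ncard hsub2 (Finset.finite_toSet _)
      _ = ((SS h v (k + 1) J n).biUnion F).card := Set.ncard_coe_finset _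
      _ ≤ ∑ a ∈ SS h v (k + 1) J n, (F a).card := Finset.card_biUnion_le
      _ ≤ ∑ a ∈ SS h v (k + 1) J n, C * (J + 1) ^ C := Finset.sum_le_sum fun a _ => hcF a
      _ = (SS h v (k + 1) J n).card * (C * (J + 1) ^ C) := by rw [Finset.sum_const, smul_eq_mul]
      _ ≤ (C0 * (k + 1) * bb h ^ 10 * (J + 1) ^ (C0 + 4)) * (C * (J + 1) ^ C) :=
          Nat.mul_le_mul_right _ (card_SS (fun i n => hC0 i (k + 1) n hk) J n)
      _ = (C0 * (k + 1) * bb h ^ 10 * C) * (J + 1) ^ (C0 + 4 + C) := by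
          rw [pow_add (J + 1) (C0 + 4) C]; ring
      _ ≤ _ := Nat.mul_le_mul (Nat.le_add_right _ _)
          (Nat.pow_le_pow_right (Nat.succ_pos J) (Nat.le_add_left _ _))

end P199

/-- polylogarithmic bound of the representation function -/
theorem pol {h : ℕ} (_hh : 2 ≤ h) : S_Pol h := by
  intro v hv
  obtain ⟨C, hC⟩ := P199.bound v hv h le_rfl
  exact ⟨C, fun J n hn => (hC J n hn).2⟩

end Pool.Agent.N885.NC
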