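import Pool.Agent.N885.NC.El
import Pool.Agent.N885.NC.Mom

/-! # Near-counterexamples of every order: one level of the construction -/

set_option linter.unusedSectionVars false

namespace Pool.Agent.N885.NC

open Finset

instance (h i : ℕ) : NeZero (VV h i) := ⟨(VV_pos h i).ne'⟩
instance (h i : ℕ) : NeZero (MM h i) := ⟨(MM_pos h i).ne'⟩
instance (h i : ℕ) : NeZero (NN h i) := ⟨(NN_pos h i).ne'⟩

/-- lower parts of level `i` depend only on the offsets of the levels below `i` -/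
theorem pt_congr {h : ℕ} {v v' : ℕ → ℕ → ℕ → ℕ} {i : ℕ} (hv : ∀ j < i, v j = v' j) :
    pt h v i = pt h v' i := by
  induction i with
  | zero => rfl
  | succ i ih =>
    funext c e
    rw [pt_succ, pt_succ, ih fun j hj => hv j (by omega), hv i (Nat.lt_succ_self i)]

theorem Zc_congr {h : ℕ} {v v' : ℕ → ℕ → ℕ → ℕ} {i : ℕ} (hv : ∀ j < i, v j = v' j) (k n : ℕ) :
    Zc h v i k n = Zc h v' i k n := by
  unfold Zc; rw [pt_congr hv]

/-- atoms -/
abbrev At (h i : ℕ) : Type := Fin h × Fin (NN h i)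

/-- offsets from a function on atoms -/
def uo (h i : ℕ) (x : At h i → ZMod (VV h i)) (c e : ℕ) : ℕ :=
  if hce : c < h ∧ e < NN h i then (x (⟨c, hce.1⟩, ⟨e, hce.2⟩)).val else 0

/-- new offsets at level `i` -/
def nv (h : ℕ) (v : ℕ → ℕ → ℕ → ℕ) (i : ℕ) (x : At h i → ZMod (VV h i)) : ℕ → ℕ → ℕ → ℕ :=
  Function.update v i (uo h i x)

theorem nv_lt (h : ℕ) (v : ℕ → ℕ → ℕ → ℕ) (i : ℕ) (x : At h i → ZMod (VV h i)) :
    ∀ j < i, nv h v i x j = v j := by
  intro j hj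
  unfold nv
  rw [Function.update_of_ne (by omega)]

theorem nv_self (h : ℕ) (v : ℕ → ℕ → ℕ → ℕ) (i : ℕ) (x : At h i → ZMod (VV h i)) :
    nv h v i x i = uo h i x := by
  unfold nv; rw [Function.update_self]

/-- the tuples over `n` -/
def Sn (h : ℕ) (v : ℕ → ℕ → ℕ → ℕ) (i k n : ℕ) : Finset (Fin k → At h i) :=
  univ.filter fun τ => (∑ j, pt h v i (τ j).1 (τ j).2) % MM h i = n % MM h i

theorem Sn_card (h : ℕ) (v : ℕ → ℕ → ℕ → ℕ) (i k n : ℕ) : (Sn h v i k n).card = Zc h v i k n := rfl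

/-- the targets -/
def tgt (h : ℕ) (v : ℕ → ℕ → ℕ → ℕ) (i k n y : ℕ) (τ : Fin k → At h i)
    (d : Fin k → Fin (bb h ^ ss h i)) : ZMod (VV h i) :=
  (y : ZMod (VV h i)) - (((∑ j, pt h v i (τ j).1 (τ j).2) - n) / MM h i : ℕ) -
    ((∑ j, bb h ^ ((τ j).1 : ℕ) * sp h (d j) : ℕ) : ZMod (VV h i))

theorem step_Z {h : ℕ} (v : ℕ → ℕ → ℕ → ℕ) (i k : ℕ) {n y : ℕ} (hn : n < MM h i)
    (x : At h i → ZMod (VV h i)) :
    Zc h (nv h v i x) (i + 1) k (n + MM h i * y) ≤
      ∑ τ ∈ Sn h v i k n, Rc (tgt h v i k n y) τ x := by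
  classical
  set v' := nv h v i x with hv'
  have hpt : pt h v' i = pt h v i := pt_congr (nv_lt h v i x)
  let g : (Fin k → Fin h × Fin (NN h (i + 1))) → (Fin k → At h i) := fun τ' j =>
    ((τ' j).1, ⟨(τ' j).2 % NN h i, Nat.mod_lt _ (NN_pos h i)⟩)
  let dd : (Fin k → Fin h × Fin (NN h (i + 1))) → (Fin k → Fin (bb h ^ ss h i)) := fun τ' j =>
    ⟨(τ' j).2 / NN h i, div_NN_lt (τ' j).2.2⟩
  have hmod : ∀ τ' : Fin k → Fin h × Fin (NN h (i + 1)),
      (∑ j, pt h v' (i + 1) (τ' j).1 (τ' j).2) ≡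
      (∑ j, pt h v i (g τ' j).1 (g τ' j).2) + MM h i * ∑ j, (uo h i x (g τ' j).1 (g τ' j).2 +
        bb h ^ ((g τ' j).1 : ℕ) * sp h (dd τ' j)) [MOD MM h (i + 1)] := by
    intro τ'
    rw [Finset.mul_sum, ← Finset.sum_add_distrib]
    refine Nat.ModEq.sum fun j _ => ?_
    have h1 := pt_succ_modEq v' h i (τ' j).1 (τ' j).2
    rw [hpt, hv', nv_self] at h1
    exact h1
  have hmaps : ∀ τ' ∈ (univ.filter fun τ : Fin k → Fin h × Fin (NN h (i + 1)) =>
      (∑ j, pt h v' (i + 1) (τ j).1 (τ j).2) % MM h (i + 1) = (n + MM h i * y) % MM h (i + 1)),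
      g τ' ∈ Sn h v i k n := by
    intro τ' hτ'
    have h1 : (∑ j, pt h v' (i + 1) (τ' j).1 (τ' j).2) ≡ n + MM h i * y [MOD MM h (i + 1)] :=
      (mem_filter.mp hτ').2
    have h2 := ((hmod τ').symm.trans h1).of_dvd (MM_dvd (Nat.le_succ i))
    have h3 : ∀ a z : ℕ, a + MM h i * z ≡ a [MOD MM h i] := fun a z => by simp [Nat.ModEq]
    exact mem_filter.mpr ⟨mem_univ _, ((h3 _ _).symm.trans h2).trans (h3 _ _)⟩
  rw [show Zc h v' (i + 1) k (n + MM h i * y) =
    (univ.filter fun τ : Fin k → Fin h × Fin (NN h (i + 1)) =>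
      (∑ j, pt h v' (i + 1) (τ j).1 (τ j).2) % MM h (i + 1) =
        (n + MM h i * y) % MM h (i + 1)).card from rfl]
  rw [card_eq_sum_card_fiberwise (f := g) (t := Sn h v i k n) hmaps]
  refine sum_le_sum fun τ hτ => ?_
  unfold Rc
  refine card_le_card_of_injOn dd ?_ ?_
  · intro τ' hτ'
    have h0 := mem_filter.mp (mem_coe.mp hτ')
    have h1 : (∑ j, pt h v' (i + 1) (τ' j).1 (τ' j).2) ≡ n + MM h i * y [MOD MM h (i + 1)] :=
      (mem_filter.mp h0.1).2
    have hg : g τ' = τ := h0.2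
    have h2 := (hmod τ').symm.trans h1
    rw [hg] at h2
    have hS : (∑ j, pt h v i (τ j).1 (τ j).2) % MM h i = n % MM h i := (mem_filter.mp hτ).2
    rw [Nat.mod_eq_of_lt hn] at hS
    set P := ∑ j, pt h v i (τ j).1 (τ j).2 with hP
    have hP2 : P = n + MM h i * ((P - n) / MM h i) := by
      have h3 := Nat.div_add_mod P (MM h i)
      rw [hS] at h3
      have h4 : P - n = MM h i * (P / MM h i) := by omega
      rw [h4, Nat.mul_div_cancel_left _ (MM_pos h i)]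
      omega
    rw [mem_coe, mem_filter]
    refine ⟨mem_univ _, ?_⟩
    have h5 : MM h i * ((P - n) / MM h i + ∑ j, (uo h i x (τ j).1 (τ j).2 +
        bb h ^ ((τ j).1 : ℕ) * sp h (dd τ' j))) ≡ MM h i * y [MOD MM h (i + 1)] := by
      apply Nat.ModEq.add_left_cancel' n
      rw [mul_add, ← add_assoc, ← hP2]
      exact h2
    rw [MM_succ] at h5
    have h6 := Nat.ModEq.mul_left_cancel' (MM_pos h i).ne' h5
    have h7 := (ZMod.natCast_eq_natCast_iff _ _ _).mpr h6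
    rw [sum_add_distrib] at h7
    push_cast at h7
    have h8 : ∑ j, ((uo h i x (τ j).1 (τ j).2 : ℕ) : ZMod (VV h i)) = ∑ j, x (τ j) := by
      refine sum_congr rfl fun j _ => ?_
      unfold uo
      rw [dif_pos ⟨(τ j).1.2, (τ j).2.2⟩]
      rw [ZMod.natCast_val, ZMod.cast_id]
    rw [h8] at h7
    unfold tgt
    push_cast
    rw [← h7]
    simp only [← hP]
    push_cast
    ring
  · intro τ' hτ' τ'' hτ'' hdd
    have h1 : g τ' = τ := (mem_filter.mp (mem_coe.mp hτ')).2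
    have h2 : g τ'' = τ := (mem_filter.mp (mem_coe.mp hτ'')).2
    funext j
    have h3 := congrFun (h1.trans h2.symm) j
    have h4 := congrArg Fin.val (congrFun hdd j)
    simp only [g, Prod.mk.injEq, Fin.mk.injEq] at h3
    simp only [dd] at h4
    refine Prod.ext h3.1 (Fin.ext ?_)
    rw [← Nat.div_add_mod ((τ' j).2 : ℕ) (NN h i), ← Nat.div_add_mod ((τ'' j).2 : ℕ) (NN h i),
      h3.2, h4]

/-- every tuple has few children in a given class -/
theorem Rc_le {h : ℕ} (hh : 0 < h) (v : ℕ → ℕ → ℕ → ℕ) (i k n y : ℕ) (τ : Fin (k + 1) → At h i)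
    (x : At h i → ZMod (VV h i)) :
    Rc (tgt h v i (k + 1) n y) τ x ≤ (bb h ^ ss h i) ^ k := by
  classical
  have hcard : (univ : Finset (Fin k → Fin (bb h ^ ss h i))).card = (bb h ^ ss h i) ^ k := by simp
  rw [← hcard]
  unfold Rc
  refine card_le_card_of_injOn (fun d j => d j.succ) (fun _ _ => mem_coe.mpr (mem_univ _)) ?_
  intro d hd d' hd' hdd
  have h1 := (mem_filter.mp (mem_coe.mp hd)).2
  have h2 := (mem_filter.mp (mem_coe.mp hd')).2
  have hs : ∀ j : Fin k, d j.succ = d' j.succ := fun j => congrFun hdd j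
  have h3 : tgt h v i (k + 1) n y τ d = tgt h v i (k + 1) n y τ d' := h1.symm.trans h2
  unfold tgt at h3
  have h4 := sub_right_injective h3
  have h5 : (∑ j, bb h ^ ((τ j).1 : ℕ) * sp h (d j)) ≡ (∑ j, bb h ^ ((τ j).1 : ℕ) * sp h (d' j))
      [MOD VV h i] := (ZMod.natCast_eq_natCast_iff _ _ _).mp h4
  rw [Fin.sum_univ_succ, Fin.sum_univ_succ] at h5
  simp only [hs] at h5
  have h6 := Nat.ModEq.add_right_cancel' _ h5
  have h7 : bb h ^ ((τ 0).1 : ℕ) * sp h (d 0) = bb h ^ ((τ 0).1 : ℕ) * sp h (d' 0) :=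
    Nat.ModEq.eq_of_lt_of_lt h6 ((csp_lt_iff (τ 0).1.2 _ _).mpr (d 0).2)
      ((csp_lt_iff (τ 0).1.2 _ _).mpr (d' 0).2)
  have h8 := Nat.eq_of_mul_eq_mul_left (Nat.pow_pos (bb_pos h)) h7
  have h9 := sp_inj hh h8
  funext j
  refine Fin.cases (Fin.ext h9) (fun j => hs j) j

/-- the tuples over `n` containing a given atom -/
theorem card_atom_le {h : ℕ} (v : ℕ → ℕ → ℕ → ℕ) (i k n : ℕ) (a : At h i) {Z : ℕ}
    (hZ : ∀ n', Zc h v i k n' ≤ Z) :
    ((Sn h v i (k + 1) n).filter (fun τ => ∃ j, τ j = a)).card ≤ (k + 1) * Z := by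
  classical
  have h1 : ((Sn h v i (k + 1) n).filter (fun τ => ∃ j, τ j = a)) ⊆
      univ.biUnion fun j : Fin (k + 1) => (Sn h v i (k + 1) n).filter (fun τ => τ j = a) := by
    intro τ hτ
    obtain ⟨h2, j, hj⟩ := mem_filter.mp hτ
    exact mem_biUnion.mpr ⟨j, mem_univ _, mem_filter.mpr ⟨h2, hj⟩⟩
  refine (card_le_card h1).trans (card_biUnion_le.trans ?_)
  have h2 : ∀ j : Fin (k + 1), ((Sn h v i (k + 1) n).filter (fun τ => τ j = a)).card ≤ Z := by
    intro j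
    refine le_trans ?_ (hZ (n + MM h i - pt h v i a.1 a.2))
    rw [← Sn_card]
    refine card_le_card_of_injOn (fun τ l => τ (j.succAbove l)) ?_ ?_
    · intro τ hτ
      obtain ⟨h3, h4⟩ := mem_filter.mp (mem_coe.mp hτ)
      have h5 : (∑ j, pt h v i (τ j).1 (τ j).2) ≡ n [MOD MM h i] := (mem_filter.mp h3).2
      rw [Fin.sum_univ_succAbove _ j, h4] at h5
      rw [mem_coe]
      refine mem_filter.mpr ⟨mem_univ _, ?_⟩
      have h6 : pt h v i a.1 a.2 < MM h i := pt_lt v h i _ _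
      have h7 : pt h v i a.1 a.2 + ∑ l, pt h v i (τ (j.succAbove l)).1 (τ (j.succAbove l)).2 ≡
          pt h v i a.1 a.2 + (n + MM h i - pt h v i a.1 a.2) [MOD MM h i] := by
        refine h5.trans ?_
        rw [Nat.add_sub_cancel' (by omega)]
        simp [Nat.ModEq]
      exact Nat.ModEq.add_left_cancel' _ h7
    · intro τ hτ τ' hτ' hττ
      have h3 := (mem_filter.mp (mem_coe.mp hτ)).2
      have h4 := (mem_filter.mp (mem_coe.mp hτ')).2
      funext l
      rcases Fin.eq_self_or_eq_succAbove j l with rfl | ⟨l', rfl⟩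
      · exact h3.trans h4.symm
      · exact congrFun hττ l'
  refine (sum_le_sum fun j _ => h2 j).trans ?_
  simp

end Pool.Agent.N885.NC
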