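import Pool.Agent.N885.NC.Def

/-! # Near-counterexamples of every order: digits and decoding -/

namespace Pool.Agent.N885.NC

open Finset

/-! ### the bases -/

theorem two_le_bb (h : ℕ) : 2 ≤ bb h := by
  have := Nat.factorial_pos h
  unfold bb; omega

theorem lt_bb (h : ℕ) : h < bb h := by
  have := Nat.self_le_factorial h
  unfold bb; omega

theorem bb_pos (h : ℕ) : 0 < bb h := by have := two_le_bb h; omega

theorem BB_pos (h : ℕ) : 0 < BB h := Nat.pow_pos (bb_pos h)

theorem bb_le_BB {h : ℕ} (hh : 0 < h) : bb h ≤ BB h := by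
  unfold BB
  calc bb h = bb h ^ 1 := (pow_one _).symm
    _ ≤ bb h ^ h := Nat.pow_le_pow_right (bb_pos h) hh

theorem two_le_BB {h : ℕ} (hh : 0 < h) : 2 ≤ BB h := (two_le_bb h).trans (bb_le_BB hh)

/-- `gcd (m, b) = 1` for `1 ≤ m ≤ h` -/
theorem coprime_bb {h m : ℕ} (h1 : 1 ≤ m) (h2 : m ≤ h) : Nat.Coprime m (bb h) := by
  unfold bb
  have : m ∣ h.factorial := Nat.dvd_factorial h1 h2
  obtain ⟨t, ht⟩ := this
  rw [ht]
  simp

theorem BB_pow_eq (h s : ℕ) : BB h ^ s = (bb h ^ s) ^ h := by
  unfold BB; rw [← pow_mul, ← pow_mul, mul_comm]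

/-! ### spreading the digits -/

theorem sp_zero (h : ℕ) : sp h 0 = 0 := by simp [sp]

theorem sp_rec (h d : ℕ) : sp h d = d % bb h + BB h * sp h (d / bb h) := by
  rcases Nat.eq_zero_or_pos d with rfl | hd
  · simp [sp]
  · unfold sp
    rw [Nat.digits_def' (by have := two_le_bb h; omega) hd, Nat.ofDigits_cons]

theorem sp_small {h d : ℕ} (hd : d < bb h) : sp h d = d := by
  rw [sp_rec, Nat.mod_eq_of_lt hd, Nat.div_eq_of_lt hd, sp_zero]; simp

theorem sp_add {h s : ℕ} : ∀ {d : ℕ} (e : ℕ), d < bb h ^ s →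
    sp h (d + bb h ^ s * e) = sp h d + BB h ^ s * sp h e := by
  induction s with
  | zero => intro d e hd; simp at hd; subst hd; simp [sp_zero]
  | succ s ih =>
    intro d e hd
    rw [sp_rec, sp_rec h d]
    have hb := bb_pos h
    have h1 : (d + bb h ^ (s + 1) * e) % bb h = d % bb h := by
      rw [pow_succ, mul_assoc, mul_comm (bb h ^ s), mul_assoc, Nat.add_mul_mod_self_left]
    have h2 : (d + bb h ^ (s + 1) * e) / bb h = d / bb h + bb h ^ s * e := by
      rw [pow_succ, mul_comm (bb h ^ s) (bb h), mul_assoc, Nat.add_mul_div_left _ _ hb]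
    rw [h1, h2, ih e]
    · ring
    · rw [Nat.div_lt_iff_lt_mul hb, ← pow_succ]; exact hd

theorem sp_mono_lt {h s d : ℕ} (hh : 0 < h) (hd : d < bb h ^ s) : sp h d < BB h ^ s := by
  induction s generalizing d with
  | zero => simp at hd; subst hd; simp [sp_zero]
  | succ s ih =>
    rw [sp_rec]
    have hb := bb_pos h
    have h1 : d / bb h < bb h ^ s := by
      rw [Nat.div_lt_iff_lt_mul hb, ← pow_succ]; exact hd
    have h2 := ih h1
    have h3 : d % bb h < BB h := lt_of_lt_of_le (Nat.mod_lt _ hb) (bb_le_BB hh)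
    calc d % bb h + BB h * sp h (d / bb h) < BB h + BB h * sp h (d / bb h) := by omega
      _ = BB h * (sp h (d / bb h) + 1) := by ring
      _ ≤ BB h * BB h ^ s := Nat.mul_le_mul_left _ h2
      _ = BB h ^ (s + 1) := by ring

/-! ### combining `h` numbers -/

/-- `∑ c, b ^ c sp (d c)` -/
def comb (h : ℕ) (d : Fin h → ℕ) : ℕ := ∑ c : Fin h, bb h ^ (c : ℕ) * sp h (d c)

theorem comb_rec (h : ℕ) (d : Fin h → ℕ) : comb h d =
    (∑ c : Fin h, bb h ^ (c : ℕ) * (d c % bb h)) + BB h * comb h (fun c => d c / bb h) := by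
  unfold comb
  rw [Finset.mul_sum, ← Finset.sum_add_distrib]
  refine Finset.sum_congr rfl fun c _ => ?_
  rw [sp_rec h (d c)]; ring

/-- the one-digit part, as a number below `B` -/
theorem low_lt (h : ℕ) (x : Fin h → ℕ) (hx : ∀ c, x c < bb h) :
    (∑ c : Fin h, bb h ^ (c : ℕ) * x c) < BB h := by
  have := (finFunctionFinEquiv (fun c => (⟨x c, hx c⟩ : Fin (bb h)))).2
  rw [finFunctionFinEquiv_apply_val] at this
  unfold BB
  convert this using 2 with c
  simp [mul_comm]

theorem low_inj (h : ℕ) (x y : Fin h → ℕ) (hx : ∀ c, x c < bb h) (hy : ∀ c, y c < bb h)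
    (hxy : (∑ c : Fin h, bb h ^ (c : ℕ) * x c) = ∑ c : Fin h, bb h ^ (c : ℕ) * y c) : x = y := by
  have key : finFunctionFinEquiv (fun c => (⟨x c, hx c⟩ : Fin (bb h))) =
      finFunctionFinEquiv (fun c => (⟨y c, hy c⟩ : Fin (bb h))) := by
    apply Fin.ext
    rw [finFunctionFinEquiv_apply_val, finFunctionFinEquiv_apply_val]
    simpa [mul_comm] using hxy
  have := finFunctionFinEquiv.injective key
  funext c
  simpa using congrArg Fin.val (congrFun this c)

theorem low_surj (h : ℕ) (q : ℕ) (hq : q < BB h) : ∃ x : Fin h → ℕ, (∀ c, x c < bb h) ∧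
    (∑ c : Fin h, bb h ^ (c : ℕ) * x c) = q := by
  refine ⟨fun c => (finFunctionFinEquiv.symm (⟨q, hq⟩ : Fin (bb h ^ h)) c : Fin (bb h)),
    fun c => Fin.is_lt _, ?_⟩
  have := congrArg Fin.val (finFunctionFinEquiv.apply_symm_apply (⟨q, hq⟩ : Fin (bb h ^ h)))
  rw [finFunctionFinEquiv_apply_val] at this
  simpa [mul_comm] using this

theorem comb_inj {h : ℕ} (hh : 0 < h) : Function.Injective (comb h) := by
  have key : ∀ q : ℕ, ∀ d d' : Fin h → ℕ, comb h d = q → comb h d' = q → d = d' := by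
    intro q
    induction q using Nat.strong_induction_on with
    | _ q ih =>
      intro d d' h1 h2
      have hb := bb_pos h
      have hr1 := comb_rec h d
      have hr2 := comb_rec h d'
      have hl1 := low_lt h (fun c => d c % bb h) (fun c => Nat.mod_lt _ hb)
      have hl2 := low_lt h (fun c => d' c % bb h) (fun c => Nat.mod_lt _ hb)
      have hq1 : comb h (fun c => d c / bb h) = q / BB h := by
        rw [← h1, hr1, Nat.add_mul_div_left _ _ (BB_pos h), Nat.div_eq_of_lt hl1, zero_add]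
      have hq2 : comb h (fun c => d' c / bb h) = q / BB h := by
        rw [← h2, hr2, Nat.add_mul_div_left _ _ (BB_pos h), Nat.div_eq_of_lt hl2, zero_add]
      have hlow : (fun c => d c % bb h) = fun c => d' c % bb h := by
        apply low_inj h _ _ (fun c => Nat.mod_lt _ hb) (fun c => Nat.mod_lt _ hb)
        have e1 : (∑ c : Fin h, bb h ^ (c : ℕ) * (d c % bb h)) = q % BB h := by
          rw [← h1, hr1, Nat.add_mul_mod_self_left, Nat.mod_eq_of_lt hl1]
        have e2 : (∑ c : Fin h, bb h ^ (c : ℕ) * (d' c % bb h)) = q % BB h := by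
          rw [← h2, hr2, Nat.add_mul_mod_self_left, Nat.mod_eq_of_lt hl2]
        rw [e1, e2]
      rcases Nat.eq_zero_or_pos q with rfl | hq
      · -- everything is zero
        have hz : ∀ dd : Fin h → ℕ, comb h dd = 0 → ∀ c, sp h (dd c) = 0 := by
          intro dd hdd c
          have := (Finset.sum_eq_zero_iff.mp hdd) c (mem_univ c)
          rcases Nat.mul_eq_zero.mp this with h3 | h3
          · exact absurd h3 (by have := Nat.pow_pos (n := (c : ℕ)) hb; omega)
          · exact h3
        have hsp0 : ∀ n, sp h n = 0 → n = 0 := by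
          intro n
          induction n using Nat.strong_induction_on with
          | _ n ihn =>
            intro hn
            by_contra hne
            rw [sp_rec] at hn
            have h4 : n % bb h = 0 := by omega
            have h5 : BB h * sp h (n / bb h) = 0 := by omega
            have h6 : sp h (n / bb h) = 0 := by
              rcases Nat.mul_eq_zero.mp h5 with h7 | h7
              · have := BB_pos h; omega
              · exact h7
            have h8 := ihn (n / bb h) (Nat.div_lt_self (by omega) (by have := two_le_bb h; omega)) h6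
            have := Nat.div_add_mod n (bb h)
            rw [h8, h4] at this; omega
        funext c
        rw [hsp0 _ (hz d h1 c), hsp0 _ (hz d' h2 c)]
      · have hdiv := ih (q / BB h) (Nat.div_lt_self hq (by have := two_le_BB hh; omega)) _ _ hq1 hq2
        funext c
        have a1 := congrFun hlow c
        have a2 := congrFun hdiv c
        rw [← Nat.div_add_mod (d c) (bb h), ← Nat.div_add_mod (d' c) (bb h), a1, a2]
  intro d d' hdd
  exact key _ d d' rfl hdd.symm

theorem comb_surj {h : ℕ} (hh : 0 < h) (q : ℕ) : ∃ d : Fin h → ℕ, comb h d = q := by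
  induction q using Nat.strong_induction_on with
  | _ q ih =>
    rcases Nat.eq_zero_or_pos q with rfl | hq
    · exact ⟨fun _ => 0, by simp [comb, sp_zero]⟩
    · obtain ⟨d, hd⟩ := ih (q / BB h) (Nat.div_lt_self hq (by have := two_le_BB hh; omega))
      obtain ⟨x, hx, hxs⟩ := low_surj h (q % BB h) (Nat.mod_lt _ (BB_pos h))
      refine ⟨fun c => x c + bb h * d c, ?_⟩
      rw [comb_rec]
      have e1 : ∀ c, (x c + bb h * d c) % bb h = x c := fun c => by
        rw [Nat.add_mul_mod_self_left, Nat.mod_eq_of_lt (hx c)]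
      have e2 : ∀ c, (x c + bb h * d c) / bb h = d c := fun c => by
        rw [Nat.add_mul_div_left _ _ (bb_pos h), Nat.div_eq_of_lt (hx c), zero_add]
      simp only [e1, e2]
      rw [hxs, hd]
      exact Nat.mod_add_div q (BB h)

theorem comb_existsUnique {h : ℕ} (hh : 0 < h) (q : ℕ) : ∃! d : Fin h → ℕ, comb h d = q := by
  obtain ⟨d, hd⟩ := comb_surj hh q
  exact ⟨d, hd, fun d' hd' => comb_inj hh (hd'.trans hd.symm)⟩

theorem comb_lt_iff {h : ℕ} (s : ℕ) (d : Fin h → ℕ) :
    comb h d < BB h ^ s ↔ ∀ c, d c < bb h ^ s := by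
  induction s generalizing d with
  | zero =>
    simp only [pow_zero, Nat.lt_one_iff]
    constructor
    · intro h0 c
      have hsp0 : ∀ n, sp h n = 0 → n = 0 := by
        intro n
        induction n using Nat.strong_induction_on with
        | _ n ihn =>
          intro hn
          by_contra hne
          rw [sp_rec] at hn
          have h4 : n % bb h = 0 := by omega
          have h5 : BB h * sp h (n / bb h) = 0 := by omega
          have h6 : sp h (n / bb h) = 0 := by
            rcases Nat.mul_eq_zero.mp h5 with h7 | h7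
            · have := BB_pos h; omega
            · exact h7
          have h8 := ihn (n / bb h) (Nat.div_lt_self (by omega) (by have := two_le_bb h; omega)) h6
          have := Nat.div_add_mod n (bb h)
          rw [h8, h4] at this; omega
      have := (Finset.sum_eq_zero_iff.mp h0) c (mem_univ c)
      rcases Nat.mul_eq_zero.mp this with h3 | h3
      · exact absurd h3 (by have := Nat.pow_pos (n := (c : ℕ)) (bb_pos h); omega)
      · exact hsp0 _ h3
    · intro h0
      simp [comb, h0, sp_zero]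
  | succ s ih =>
    have hb := bb_pos h
    have hl := low_lt h (fun c => d c % bb h) (fun c => Nat.mod_lt _ hb)
    have h1 : comb h d < BB h ^ (s + 1) ↔ comb h (fun c => d c / bb h) < BB h ^ s := by
      rw [comb_rec]
      constructor
      · intro h2
        by_contra h3
        push Not at h3
        have : BB h ^ (s + 1) ≤ BB h * comb h (fun c => d c / bb h) := by
          rw [pow_succ, mul_comm]; exact Nat.mul_le_mul_left _ h3
        omega
      · intro h2
        have h3 : BB h * (comb h (fun c => d c / bb h) + 1) ≤ BB h * BB h ^ s :=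
          Nat.mul_le_mul_left _ h2
        rw [pow_succ, mul_comm (BB h ^ s)]
        rw [mul_add, mul_one] at h3
        omega
    rw [h1, ih]
    refine forall_congr' fun c => ?_
    rw [Nat.div_lt_iff_lt_mul hb, ← pow_succ]

theorem comb_add {h s : ℕ} (d e : Fin h → ℕ) (hd : ∀ c, d c < bb h ^ s) :
    comb h (fun c => d c + bb h ^ s * e c) = comb h d + BB h ^ s * comb h e := by
  unfold comb
  rw [Finset.mul_sum, ← Finset.sum_add_distrib]
  refine Finset.sum_congr rfl fun c _ => ?_
  rw [sp_add _ (hd c)]; ring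

/-- `b ^ c sp d < B ^ s` iff `d < b ^ s` -/
theorem csp_lt_iff {h c : ℕ} (hc : c < h) (s d : ℕ) :
    bb h ^ c * sp h d < BB h ^ s ↔ d < bb h ^ s := by
  have h1 := comb_lt_iff (h := h) s (fun c' => if c' = ⟨c, hc⟩ then d else 0)
  have h2 : comb h (fun c' => if c' = ⟨c, hc⟩ then d else 0) = bb h ^ c * sp h d := by
    unfold comb
    rw [Finset.sum_eq_single (⟨c, hc⟩ : Fin h)]
    · simp
    · intro c' _ hne
      simp [hne, sp_zero]
    · intro h3; exact absurd (mem_univ _) h3
  rw [h2] at h1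
  rw [h1]
  constructor
  · intro h3; simpa using h3 ⟨c, hc⟩
  · intro h3 c'
    by_cases h4 : c' = ⟨c, hc⟩
    · simpa [h4] using h3
    · simp [h4, Nat.pow_pos (bb_pos h)]

theorem sp_inj {h : ℕ} (hh : 0 < h) : Function.Injective (sp h) := by
  intro d d' hdd
  have : comb h (fun c' => if c' = ⟨0, hh⟩ then d else 0) =
      comb h (fun c' => if c' = ⟨0, hh⟩ then d' else 0) := by
    unfold comb
    refine Finset.sum_congr rfl fun c _ => ?_
    by_cases h4 : c = ⟨0, hh⟩
    · simp [h4, hdd]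
    · simp [h4]
  have := congrFun (comb_inj hh this) ⟨0, hh⟩
  simpa using this

/-! ### levels -/

theorem NN_pos (h i : ℕ) : 0 < NN h i := Nat.pow_pos (bb_pos h)
theorem MM_pos (h i : ℕ) : 0 < MM h i := Nat.pow_pos (BB_pos h)
theorem VV_pos (h i : ℕ) : 0 < VV h i := Nat.pow_pos (BB_pos h)

theorem mm_succ (h i : ℕ) : mm h (i + 1) = mm h i + ss h i := by
  unfold mm; rw [Finset.sum_range_succ]

theorem mm_zero (h : ℕ) : mm h 0 = 0 := by simp [mm]

theorem NN_succ (h i : ℕ) : NN h (i + 1) = NN h i * bb h ^ ss h i := by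
  unfold NN; rw [mm_succ, pow_add]

theorem MM_succ (h i : ℕ) : MM h (i + 1) = MM h i * VV h i := by
  unfold MM VV; rw [mm_succ, pow_add]

theorem MM_eq (h i : ℕ) : MM h i = NN h i ^ h := by
  unfold MM NN; rw [BB_pow_eq]

theorem mm_mono (h : ℕ) : Monotone (mm h) := by
  apply monotone_nat_of_le_succ
  intro i; rw [mm_succ]; omega

theorem NN_dvd {h i j : ℕ} (hij : i ≤ j) : NN h i ∣ NN h j := pow_dvd_pow _ (mm_mono h hij)
theorem MM_dvd {h i j : ℕ} (hij : i ≤ j) : MM h i ∣ MM h j := pow_dvd_pow _ (mm_mono h hij)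

theorem lg_mono (h : ℕ) : Monotone (lg h) := by
  intro i j hij
  unfold lg
  exact Nat.log_mono_right (by omega)

theorem ll_pos (h i : ℕ) : 0 < ll h i := by unfold ll; omega

theorem bb_pow_lg_le (h i : ℕ) : bb h ^ lg h i ≤ i + 1 := Nat.pow_log_le_self _ (by omega)

theorem bb_pow_ss_le (h i : ℕ) : bb h ^ ss h i ≤ bb h ^ 6 * (i + 1) ^ 2 := by
  unfold ss
  rw [pow_add, mul_comm (2 : ℕ) (lg h i), pow_mul, mul_comm]
  exact Nat.mul_le_mul_left _ (Nat.pow_le_pow_left (bb_pow_lg_le h i) 2)

theorem ss_ge (h i : ℕ) : 6 ≤ ss h i := by unfold ss; omega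

variable (v : ℕ → ℕ → ℕ → ℕ)

theorem pt_succ (h i c e : ℕ) : pt h v (i + 1) c e = pt h v i c (e % NN h i) +
      MM h i * ((v i c (e % NN h i) + bb h ^ c * sp h (e / NN h i)) % VV h i) := rfl

theorem pt_lt (h i c e : ℕ) : pt h v i c e < MM h i := by
  induction i generalizing e with
  | zero => simp [pt, MM_pos]
  | succ i ih =>
    rw [pt_succ, MM_succ]
    have h1 := ih (e % NN h i)
    have h2 : (v i c (e % NN h i) + bb h ^ c * sp h (e / NN h i)) % VV h i < VV h i :=
      Nat.mod_lt _ (VV_pos h i)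
    calc pt h v i c (e % NN h i) +
        MM h i * ((v i c (e % NN h i) + bb h ^ c * sp h (e / NN h i)) % VV h i)
        < MM h i + MM h i * ((v i c (e % NN h i) + bb h ^ c * sp h (e / NN h i)) % VV h i) := by
          omega
      _ = MM h i * ((v i c (e % NN h i) + bb h ^ c * sp h (e / NN h i)) % VV h i + 1) := by ring
      _ ≤ MM h i * VV h i := Nat.mul_le_mul_left _ h2

theorem pt_mod_succ (h i c e : ℕ) :
    pt h v (i + 1) c e % MM h i = pt h v i c (e % NN h i) := by
  rw [pt_succ, Nat.add_mul_mod_self_left, Nat.mod_eq_of_lt (pt_lt v h i c _)]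

theorem pt_mod {h i j : ℕ} (hij : j ≤ i) (c e : ℕ) (he : e < NN h i) :
    pt h v i c e % MM h j = pt h v j c (e % NN h j) := by
  induction i, hij using Nat.le_induction generalizing e with
  | base => rw [Nat.mod_eq_of_lt (pt_lt v h j c _), Nat.mod_eq_of_lt he]
  | succ i hij ih =>
    have h1 : pt h v (i + 1) c e % MM h j = (pt h v (i + 1) c e % MM h i) % MM h j :=
      (Nat.mod_mod_of_dvd _ (MM_dvd hij)).symm
    rw [h1, pt_mod_succ, ih _ (Nat.mod_lt _ (NN_pos h i)), Nat.mod_mod_of_dvd _ (NN_dvd hij)]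

/-! ### decoding -/

/-- unique decoding modulo `M i` -/
def DecInj (h : ℕ) (v : ℕ → ℕ → ℕ → ℕ) (i : ℕ) : Prop :=
  ∀ e e' : Fin h → ℕ, (∀ c, e c < NN h i) → (∀ c, e' c < NN h i) →
    (∑ c : Fin h, pt h v i c (e c)) ≡ ∑ c : Fin h, pt h v i c (e' c) [MOD MM h i] → e = e'

theorem sum_pt_add (h i : ℕ) (e : Fin h → ℕ) (y : Fin h → ℕ) :
    (∑ c : Fin h, (pt h v i c (e c) + MM h i * y c)) =
      (∑ c : Fin h, pt h v i c (e c)) + MM h i * ∑ c : Fin h, y c := by
  rw [Finset.sum_add_distrib, Finset.mul_sum]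

theorem mixed_inj {h : ℕ} (hh : 0 < h) {i : ℕ} (hd : DecInj h v i) (o : Fin h → ℕ → ℕ)
    (e w e' w' : Fin h → ℕ) (he : ∀ c, e c < NN h i) (he' : ∀ c, e' c < NN h i)
    (hw : ∀ c, w c < bb h ^ ss h i) (hw' : ∀ c, w' c < bb h ^ ss h i)
    (heq : (∑ c : Fin h, (pt h v i c (e c) + MM h i * (o c (e c) + bb h ^ (c : ℕ) * sp h (w c)))) ≡
      ∑ c : Fin h, (pt h v i c (e' c) + MM h i * (o c (e' c) + bb h ^ (c : ℕ) * sp h (w' c)))
        [MOD MM h (i + 1)]) : e = e' ∧ w = w' := by
  rw [sum_pt_add, sum_pt_add] at heq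
  have h1 : (∑ c : Fin h, pt h v i c (e c)) ≡ ∑ c : Fin h, pt h v i c (e' c) [MOD MM h i] := by
    have h2 := heq.of_dvd (MM_dvd (Nat.le_succ i))
    have h3 : ∀ a x : ℕ, a + MM h i * x ≡ a [MOD MM h i] := fun a x => by
      simp [Nat.ModEq]
    exact ((h3 _ _).symm.trans h2).trans (h3 _ _)
  have h4 : e = e' := hd e e' he he' h1
  subst h4
  refine ⟨rfl, ?_⟩
  have h5 := Nat.ModEq.add_left_cancel' _ heq
  rw [MM_succ] at h5
  have h6 := Nat.ModEq.mul_left_cancel' (MM_pos h i).ne' h5
  rw [Finset.sum_add_distrib, Finset.sum_add_distrib] at h6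
  have h7 := Nat.ModEq.add_left_cancel' _ h6
  have h8 : comb h w ≡ comb h w' [MOD VV h i] := h7
  have h9 : comb h w = comb h w' :=
    Nat.ModEq.eq_of_lt_of_lt h8 ((comb_lt_iff _ _).mpr hw) ((comb_lt_iff _ _).mpr hw')
  exact comb_inj hh h9

/-- the lower part of level `i + 1` modulo `M (i + 1)` -/
theorem pt_succ_modEq (h i c e : ℕ) : pt h v (i + 1) c e ≡ pt h v i c (e % NN h i) +
      MM h i * (v i c (e % NN h i) + bb h ^ c * sp h (e / NN h i)) [MOD MM h (i + 1)] := by
  rw [pt_succ, MM_succ]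
  refine Nat.ModEq.add_left _ ?_
  exact Nat.ModEq.mul_left' _ (Nat.mod_modEq _ _)

theorem div_NN_lt {h i e : ℕ} (he : e < NN h (i + 1)) : e / NN h i < bb h ^ ss h i := by
  rw [Nat.div_lt_iff_lt_mul (NN_pos h i), mul_comm, ← NN_succ]; exact he

theorem dec_inj {h : ℕ} (hh : 0 < h) (i : ℕ) : DecInj h v i := by
  induction i with
  | zero =>
    intro e e' he he' _
    funext c
    have h1 := he c
    have h2 := he' c
    simp only [NN, mm_zero, pow_zero, Nat.lt_one_iff] at h1 h2
    omega
  | succ i ih =>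
    intro e e' he he' heq
    have h1 : ∀ e : Fin h → ℕ, (∑ c : Fin h, pt h v (i + 1) c (e c)) ≡
        ∑ c : Fin h, (pt h v i c (e c % NN h i) + MM h i *
          (v i c (e c % NN h i) + bb h ^ (c : ℕ) * sp h (e c / NN h i))) [MOD MM h (i + 1)] :=
      fun e => Nat.ModEq.sum fun c _ => pt_succ_modEq v h i c (e c)
    obtain ⟨h2, h3⟩ := mixed_inj v hh ih (fun c x => v i c x) (fun c => e c % NN h i)
      (fun c => e c / NN h i) (fun c => e' c % NN h i) (fun c => e' c / NN h i)
      (fun c => Nat.mod_lt _ (NN_pos h i)) (fun c => Nat.mod_lt _ (NN_pos h i))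
      (fun c => div_NN_lt (he c)) (fun c => div_NN_lt (he' c))
      (((h1 e).symm.trans heq).trans (h1 e'))
    funext c
    rw [← Nat.div_add_mod (e c) (NN h i), ← Nat.div_add_mod (e' c) (NN h i),
      congrFun h2 c, congrFun h3 c]

theorem mixed {h : ℕ} (hh : 0 < h) : S_Mixed h := by
  intro v i o n
  let f : (Fin h → Fin (NN h i)) × (Fin h → Fin (bb h ^ ss h i)) → Fin (MM h (i + 1)) := fun p =>
    ⟨(∑ c : Fin h, (pt h v i c (p.1 c) + MM h i * (o c (p.1 c) + bb h ^ (c : ℕ) * sp h (p.2 c))))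
      % MM h (i + 1), Nat.mod_lt _ (MM_pos h _)⟩
  have hinj : Function.Injective f := by
    intro p p' hpp
    have h1 := congrArg Fin.val hpp
    obtain ⟨h2, h3⟩ := mixed_inj v hh (dec_inj v hh i) o (fun c => p.1 c) (fun c => p.2 c)
      (fun c => p'.1 c) (fun c => p'.2 c) (fun c => (p.1 c).2) (fun c => (p'.1 c).2)
      (fun c => (p.2 c).2) (fun c => (p'.2 c).2) h1
    refine Prod.ext (funext fun c => Fin.ext (congrFun h2 c)) (funext fun c => Fin.ext (congrFun h3 c))
  have hbij : Function.Bijective f := by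
    rw [Fintype.bijective_iff_injective_and_card]
    refine ⟨hinj, ?_⟩
    simp only [Fintype.card_prod, Fintype.card_fun, Fintype.card_fin]
    rw [MM_eq, NN_succ, mul_pow]
  obtain ⟨p, hp⟩ := hbij.2 ⟨n % MM h (i + 1), Nat.mod_lt _ (MM_pos h _)⟩
  refine ⟨p, congrArg Fin.val hp, fun p' hp' => hinj ?_⟩
  apply Fin.ext
  have h1 := congrArg Fin.val hp
  exact Eq.trans hp' h1.symm

/-- decoding modulo `M i` -/
theorem dec_exists {h : ℕ} (hh : 0 < h) (i n : ℕ) : ∃ e : Fin h → ℕ, (∀ c, e c < NN h i) ∧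
    (∑ c : Fin h, pt h v i c (e c)) ≡ n [MOD MM h i] := by
  let f : (Fin h → Fin (NN h i)) → Fin (MM h i) := fun p =>
    ⟨(∑ c : Fin h, pt h v i c (p c)) % MM h i, Nat.mod_lt _ (MM_pos h _)⟩
  have hbij : Function.Bijective f := by
    rw [Fintype.bijective_iff_injective_and_card]
    refine ⟨fun p p' hpp => ?_, by simp [MM_eq]⟩
    have h1 := congrArg Fin.val hpp
    have h2 := dec_inj v hh i (fun c => p c) (fun c => p' c) (fun c => (p c).2) (fun c => (p' c).2) h1
    exact funext fun c => Fin.ext (congrFun h2 c)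
  obtain ⟨p, hp⟩ := hbij.2 ⟨n % MM h i, Nat.mod_lt _ (MM_pos h _)⟩
  exact ⟨fun c => p c, fun c => (p c).2, congrArg Fin.val hp⟩

end Pool.Agent.N885.NC
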